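import Pool.Agent.TH910.HudMain

/-!
The 15 functions, and the passage to homomorphisms `ℕ+ →* ℤˣ`.
-/

namespace Pool.Agent.TH910.Hud

instance fact53 : Fact (Nat.Prime 53) := ⟨by norm_num⟩
instance fact13 : Fact (Nat.Prime 13) := ⟨by norm_num⟩
instance fact11 : Fact (Nat.Prime 11) := ⟨by norm_num⟩
instance fact7 : Fact (Nat.Prime 7) := ⟨by norm_num⟩
instance fact5 : Fact (Nat.Prime 5) := ⟨by norm_num⟩

/-- the function on `ℕ` given by a homomorphism -/
def toF (f : ℕ+ →* ℤˣ) (n : ℕ) : ℤ := if h : 0 < n then ((f ⟨n, h⟩ : ℤˣ) : ℤ) else 0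

lemma toF_pos (f : ℕ+ →* ℤˣ) (n : ℕ) (h : 0 < n) : toF f n = ((f ⟨n, h⟩ : ℤˣ) : ℤ) := by
  simp [toF, h]

lemma toF_pnat (f : ℕ+ →* ℤˣ) (n : ℕ+) : toF f (n : ℕ) = ((f n : ℤˣ) : ℤ) := by
  rw [toF_pos f n n.pos]; rfl

lemma toF_cm (f : ℕ+ →* ℤˣ) : CM (toF f) := by
  refine ⟨fun a b ha hb => ?_, fun n hn => ?_⟩
  · rw [toF_pos f _ (Nat.mul_pos ha hb), toF_pos f a ha, toF_pos f b hb]
    have h1 : f ⟨a * b, Nat.mul_pos ha hb⟩ = f ⟨a, ha⟩ * f ⟨b, hb⟩ :=
      map_mul f ⟨a, ha⟩ ⟨b, hb⟩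
    rw [h1, Units.val_mul]
  · rw [toF_pos f n hn]
    rcases Int.units_eq_one_or (f ⟨n, hn⟩) with h | h <;> rw [h] <;> simp

/-- the homomorphism given by a completely multiplicative sign function -/
noncomputable def toHom (G : ℕ → ℤ) (hG : CM G) : ℕ+ →* ℤˣ where
  toFun n := if G n = 1 then 1 else -1
  map_one' := by simp [hG.one]
  map_mul' a b := by
    have h := hG.mul a b a.pos b.pos
    rcases hG.sgn a a.pos with ha | ha <;> rcases hG.sgn b b.pos with hb | hb <;>
      simp [PNat.mul_coe, h, ha, hb]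

lemma toF_toHom (G : ℕ → ℤ) (hG : CM G) (n : ℕ) (hn : 0 < n) : toF (toHom G hG) n = G n := by
  rw [toF_pos _ n hn]
  change (((if G n = 1 then 1 else -1 : ℤˣ)) : ℤ) = G n
  rcases hG.sgn n hn with h | h <;> simp [h]

lemma hom_ext_primes (f g : ℕ+ →* ℤˣ) (h : ∀ q, q.Prime → toF f q = toF g q) : f = g := by
  ext n
  have h1 := MU.eq_of_primes (toF_cm f).mu (toF_cm g).mu n n.pos (fun q hq _ => h q hq)
  rwa [toF_pnat, toF_pnat] at h1

/-- the `i`-th function -/
noncomputable def fi (i : ℕ) : ℕ+ →* ℤˣ :=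
  toHom (exists_cm (fun q => sg (gb i q)) (fun q _ => by cases gb i q <;> simp [sg])).choose
    (exists_cm (fun q => sg (gb i q)) (fun q _ => by cases gb i q <;> simp [sg])).choose_spec.1

lemma fi_prime (i q : ℕ) (hq : q.Prime) : toF (fi i) q = sg (gb i q) := by
  unfold fi
  rw [toF_toHom _ _ q hq.pos]
  exact (exists_cm (fun q => sg (gb i q)) (fun q _ => by
    cases gb i q <;> simp [sg])).choose_spec.2 q hq

/-- test that the 15 functions are distinct on the primes up to 59 -/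
def distinctOK : Bool := (List.range 15).all (fun i => (List.range 15).all (fun j =>
  Nat.beq i j || PL.any (fun q => xor (gb i q) (gb j q))))

theorem distinctOK_true : distinctOK = true := by decide +kernel

lemma fi_inj (i j : ℕ) (hi : i ≤ 14) (hj : j ≤ 14) (h : fi i = fi j) : i = j := by
  have h1 := distinctOK_true
  unfold distinctOK at h1
  rw [List.all_eq_true] at h1
  have h2 := h1 i (List.mem_range.2 (by omega))
  rw [List.all_eq_true] at h2
  have h3 := h2 j (List.mem_range.2 (by omega))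
  rw [Bool.or_eq_true] at h3
  rcases h3 with h3 | h3
  · exact Nat.eq_of_beq_eq_true h3
  · rw [List.any_eq_true] at h3
    obtain ⟨q, hq, hx⟩ := h3
    have hqp := (prime_of_mem_PL hq).1
    have h4 := fi_prime i q hqp
    have h5 := fi_prime j q hqp
    rw [h, h5] at h4
    cases ha : gb i q <;> cases hb : gb j q <;> rw [ha, hb] at h4 hx <;> simp [sg] at h4 hx

/-! ### tables -/

lemma leg_tab (l : ℕ) [Fact l.Prime] (R : List ℕ)
    (h : ∀ r : Fin l, r.val ≠ 0 → legendreSym l (r.val : ℤ) = sg (mem' r.val R))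
    (q : ℕ) (hq : ¬ l ∣ q) : legendreSym l (q : ℤ) = sg (mem' (q % l) R) := by
  have hl : 0 < l := (Fact.out : l.Prime).pos
  rw [legendreSym.mod]
  have h1 := h ⟨q % l, Nat.mod_lt _ hl⟩ (fun h0 => hq (Nat.dvd_of_mod_eq_zero h0))
  simpa using h1

set_option maxRecDepth 100000 in
lemma tab3 : ∀ r : Fin 3, r.val ≠ 0 → legendreSym 3 (r.val : ℤ) = sg (mem' r.val [2]) := by
  decide +kernel
set_option maxRecDepth 100000 in
lemma tab5 : ∀ r : Fin 5, r.val ≠ 0 → legendreSym 5 (r.val : ℤ) = sg (mem' r.val [2, 3]) := by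
  decide +kernel
set_option maxRecDepth 100000 in
lemma tab7 : ∀ r : Fin 7, r.val ≠ 0 → legendreSym 7 (r.val : ℤ) = sg (mem' r.val [3, 5, 6]) := by
  decide +kernel
set_option maxRecDepth 100000 in
lemma tab11 : ∀ r : Fin 11, r.val ≠ 0 →
    legendreSym 11 (r.val : ℤ) = sg (mem' r.val (gdat 8).2.2.2) := by
  decide +kernel
set_option maxRecDepth 100000 in
lemma tab13 : ∀ r : Fin 13, r.val ≠ 0 →
    legendreSym 13 (r.val : ℤ) = sg (mem' r.val (gdat 10).2.2.2) := by
  decide +kernel
set_option maxRecDepth 100000 in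
lemma tab53 : ∀ r : Fin 53, r.val ≠ 0 →
    legendreSym 53 (r.val : ℤ) = sg (mem' r.val (gdat 12).2.2.2) := by
  decide +kernel

/-- the description of the 15 functions by their values at the primes -/
def Listed (F : ℕ → ℤ) : Prop :=
  (∀ q, q.Prime → q ≠ 3 → F q = legendreSym 3 q) ∨
  (∀ q, q.Prime → q ≠ 5 → F q = legendreSym 5 q) ∨
  (∀ q, q.Prime → q ≠ 7 → F q = legendreSym 7 q) ∨
  (∀ q, q.Prime → q ≠ 11 → F q = legendreSym 11 q) ∨
  (∀ q, q.Prime → q ≠ 13 → F q = legendreSym 13 q) ∨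
  (∀ q, q.Prime → q ≠ 53 → F q = legendreSym 53 q) ∨
  (∀ q, q.Prime → q ≠ 2 → F q = ZMod.χ₄ q) ∨
  (F 2 = -1 ∧ ∀ q, q.Prime → q ≠ 2 → F q = 1)

lemma dval_ne {d : ℕ × Bool × ℕ × List ℕ} {q : ℕ} (h : q ≠ d.1) :
    dval d q = mem' (q % d.2.2.1) d.2.2.2 := by
  have hb : Nat.beq q d.1 = false := by
    rw [← Bool.not_eq_true]; simpa using h
  simp only [dval, hb, cond_false]

lemma dval_eq {d : ℕ × Bool × ℕ × List ℕ} {q : ℕ} (h : q = d.1) : dval d q = d.2.1 := by
  simp [dval, h]

lemma not_dvd_of_ne {l q : ℕ} (hl : l.Prime) (hq : q.Prime) (h : q ≠ l) : ¬ l ∣ q :=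
  fun hd => h ((Nat.prime_dvd_prime_iff_eq hl hq).1 hd).symm

lemma chi4_tab (q : ℕ) (hq : q % 2 = 1) : ZMod.χ₄ (q : ZMod 4) = sg (mem' (q % 8) [3, 7]) := by
  rw [ZMod.χ₄_nat_eq_if_mod_four]
  have h : q % 8 = 1 ∨ q % 8 = 3 ∨ q % 8 = 5 ∨ q % 8 = 7 := by omega
  rcases h with h | h | h | h
  · rw [h, if_neg (by omega), if_pos (by omega)]; rfl
  · rw [h, if_neg (by omega), if_neg (by omega)]; rfl
  · rw [h, if_neg (by omega), if_pos (by omega)]; rfl
  · rw [h, if_neg (by omega), if_neg (by omega)]; rfl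

lemma prime_odd {q : ℕ} (hq : q.Prime) (h : q ≠ 2) : q % 2 = 1 := by
  rcases Nat.Prime.eq_two_or_odd hq with h' | h'
  · exact absurd h' h
  · exact h'

lemma listed_of_index {F : ℕ → ℤ} {i : ℕ} (hi : i ≤ 14)
    (h : ∀ q, q.Prime → F q = sg (gb i q)) : Listed F := by
  have odd : ∀ (l : ℕ) (_ : Fact l.Prime) (b : Bool) (R : List ℕ), gdat i = (l, b, l, R) →
      (∀ r : Fin l, r.val ≠ 0 → legendreSym l (r.val : ℤ) = sg (mem' r.val R)) →
      ∀ q, q.Prime → q ≠ l → F q = legendreSym l q := by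
    intro l hl b R hd hR q hq hne
    rw [h q hq, leg_tab l R hR q (not_dvd_of_ne hl.out hq hne)]
    unfold gb
    rw [hd, dval_ne (by simpa using hne)]
  unfold Listed
  interval_cases i
  · exact Or.inl (odd 3 inferInstance false _ rfl tab3)
  · exact Or.inl (odd 3 inferInstance true _ rfl tab3)
  · refine Or.inr (Or.inr (Or.inr (Or.inr (Or.inr (Or.inr (Or.inl fun q hq hne => ?_))))))
    rw [h q hq, chi4_tab q (prime_odd hq hne)]
    unfold gb
    rw [dval_ne (by simpa [gdat] using hne)]; rfl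
  · refine Or.inr (Or.inr (Or.inr (Or.inr (Or.inr (Or.inr (Or.inl fun q hq hne => ?_))))))
    rw [h q hq, chi4_tab q (prime_odd hq hne)]
    unfold gb
    rw [dval_ne (by simpa [gdat] using hne)]; rfl
  · exact Or.inr (Or.inl (odd 5 inferInstance false _ rfl tab5))
  · exact Or.inr (Or.inl (odd 5 inferInstance true _ rfl tab5))
  · exact Or.inr (Or.inr (Or.inl (odd 7 inferInstance false _ rfl tab7)))
  · exact Or.inr (Or.inr (Or.inl (odd 7 inferInstance true _ rfl tab7)))
  · exact Or.inr (Or.inr (Or.inr (Or.inl (odd 11 inferInstance false _ rfl tab11))))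
  · exact Or.inr (Or.inr (Or.inr (Or.inl (odd 11 inferInstance true _ rfl tab11))))
  · exact Or.inr (Or.inr (Or.inr (Or.inr (Or.inl (odd 13 inferInstance false _ rfl tab13)))))
  · exact Or.inr (Or.inr (Or.inr (Or.inr (Or.inl (odd 13 inferInstance true _ rfl tab13)))))
  · exact Or.inr (Or.inr (Or.inr (Or.inr (Or.inr (Or.inl (odd 53 inferInstance false _ rfl
      tab53))))))
  · exact Or.inr (Or.inr (Or.inr (Or.inr (Or.inr (Or.inl (odd 53 inferInstance true _ rfl
      tab53))))))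
  · refine Or.inr (Or.inr (Or.inr (Or.inr (Or.inr (Or.inr (Or.inr ⟨?_, fun q hq hne => ?_⟩))))))
    · rw [h 2 Nat.prime_two]; rfl
    · rw [h q hq]
      unfold gb
      rw [dval_ne (by simpa [gdat] using hne)]
      simp [gdat, mem', sg]

lemma index_of_listed {F : ℕ → ℤ} (hF : CM F) (h : Listed F) :
    ∃ i ≤ 14, ∀ q, q.Prime → F q = sg (gb i q) := by
  have odd : ∀ (l : ℕ) (_ : Fact l.Prime) (R : List ℕ) (i j : ℕ), gdat i = (l, false, l, R) →
      gdat j = (l, true, l, R) → i ≤ 14 → j ≤ 14 →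
      (∀ r : Fin l, r.val ≠ 0 → legendreSym l (r.val : ℤ) = sg (mem' r.val R)) →
      (∀ q, q.Prime → q ≠ l → F q = legendreSym l q) →
      ∃ i ≤ 14, ∀ q, q.Prime → F q = sg (gb i q) := by
    intro l hl R i j hdi hdj hi hj hR hv
    rcases hF.sgn l hl.out.pos with h1 | h1
    · refine ⟨i, hi, fun q hq => ?_⟩
      by_cases hne : q = l
      · unfold gb
        rw [hdi, dval_eq (by simpa using hne), hne, h1]; rfl
      · unfold gb
        rw [hdi, dval_ne (by simpa using hne), hv q hq hne,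
          leg_tab l R hR q (not_dvd_of_ne hl.out hq hne)]
    · refine ⟨j, hj, fun q hq => ?_⟩
      by_cases hne : q = l
      · unfold gb
        rw [hdj, dval_eq (by simpa using hne), hne, h1]; rfl
      · unfold gb
        rw [hdj, dval_ne (by simpa using hne), hv q hq hne,
          leg_tab l R hR q (not_dvd_of_ne hl.out hq hne)]
  rcases h with h | h | h | h | h | h | h | h
  · exact odd 3 inferInstance _ 0 1 rfl rfl (by norm_num) (by norm_num) tab3 h
  · exact odd 5 inferInstance _ 4 5 rfl rfl (by norm_num) (by norm_num) tab5 h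
  · exact odd 7 inferInstance _ 6 7 rfl rfl (by norm_num) (by norm_num) tab7 h
  · exact odd 11 inferInstance _ 8 9 rfl rfl (by norm_num) (by norm_num) tab11 h
  · exact odd 13 inferInstance _ 10 11 rfl rfl (by norm_num) (by norm_num) tab13 h
  · exact odd 53 inferInstance _ 12 13 rfl rfl (by norm_num) (by norm_num) tab53 h
  · rcases hF.sgn 2 (by norm_num) with h1 | h1
    · refine ⟨2, by norm_num, fun q hq => ?_⟩
      by_cases hne : q = 2
      · rw [hne, h1]; rfl
      · unfold gb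
        rw [dval_ne (by simpa [gdat] using hne), h q hq hne, chi4_tab q (prime_odd hq hne)]; rfl
    · refine ⟨3, by norm_num, fun q hq => ?_⟩
      by_cases hne : q = 2
      · rw [hne, h1]; rfl
      · unfold gb
        rw [dval_ne (by simpa [gdat] using hne), h q hq hne, chi4_tab q (prime_odd hq hne)]; rfl
  · refine ⟨14, by norm_num, fun q hq => ?_⟩
    by_cases hne : q = 2
    · rw [hne, h.1]; rfl
    · unfold gb
      rw [dval_ne (by simpa [gdat] using hne), h.2 q hq hne]
      simp [gdat, mem', sg]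

/-- a Dirichlet character with integer values, as a function on `ℕ` -/
def chF {m : ℕ} (χ : DirichletCharacter ℤ m) (n : ℕ) : ℤ := χ (n : ZMod m)

lemma chF_rc {m : ℕ} (χ : DirichletCharacter ℤ m) : RC m (chF χ) := by
  refine ⟨fun a b => ?_, fun a b h => ?_, fun a h => ?_, fun a h => ?_⟩
  · simp [chF]
  · unfold chF
    rw [(ZMod.natCast_eq_natCast_iff a b m).2 h]
  · have h1 : IsUnit (a : ZMod m) := (ZMod.isUnit_iff_coprime a m).2 h
    have h2 : IsUnit (χ (a : ZMod m)) := h1.map χ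
    exact Int.isUnit_iff.1 h2
  · have h1 : ¬ IsUnit (a : ZMod m) := fun h' => h ((ZMod.isUnit_iff_coprime a m).1 h')
    exact χ.map_nonunit h1

/-! ### none of the 15 functions has four consecutive values `+1` -/

lemma leg_mu (l : ℕ) [Fact l.Prime] : MU (fun n => legendreSym l (n : ℤ)) :=
  ⟨by simp, fun a b _ _ => by
    push_cast
    exact legendreSym.mul l _ _⟩

lemma leg_coprime {F : ℕ → ℤ} (hF : CM F) (l : ℕ) [hl : Fact l.Prime]
    (h : ∀ q, q.Prime → q ≠ l → F q = legendreSym l q) (n : ℕ) (hn : 0 < n) (hd : ¬ l ∣ n) :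
    F n = legendreSym l n := by
  refine MU.eq_of_primes hF.mu (leg_mu l) n hn (fun q hq hqn => h q hq ?_)
  rintro rfl
  exact hd hqn

/-- every four consecutive residues contain one from the list -/
def hitOK (l : ℕ) (R : List ℕ) : Bool := (List.range l).all (fun r =>
  mem' r R || mem' ((r + 1) % l) R || mem' ((r + 2) % l) R || mem' ((r + 3) % l) R)

lemma no4_leg {F : ℕ → ℤ} (hF : CM F) (l : ℕ) [hl : Fact l.Prime] (R : List ℕ)
    (hR : ∀ r : Fin l, r.val ≠ 0 → legendreSym l (r.val : ℤ) = sg (mem' r.val R))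
    (hR0 : mem' 0 R = false) (hit : hitOK l R = true)
    (h : ∀ q, q.Prime → q ≠ l → F q = legendreSym l q) : No4 F := by
  have hlp : 0 < l := hl.out.pos
  have key : ∀ n, 0 < n → mem' (n % l) R = true → F n = -1 := by
    intro n hn hm
    have hd : ¬ l ∣ n := by
      intro hd
      rw [Nat.mod_eq_zero_of_dvd hd, hR0] at hm
      exact absurd hm (by decide)
    rw [leg_coprime hF l h n hn hd, leg_tab l R hR n hd, hm]; rfl
  intro n hn hall
  unfold hitOK at hit
  rw [List.all_eq_true] at hit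
  have h1 := hit (n % l) (List.mem_range.2 (Nat.mod_lt _ hlp))
  simp only [Bool.or_eq_true] at h1
  rw [Nat.mod_add_mod, Nat.mod_add_mod, Nat.mod_add_mod] at h1
  obtain ⟨a0, a1, a2, a3⟩ := hall
  rcases h1 with ((h1 | h1) | h1) | h1
  · rw [key n hn h1] at a0; norm_num at a0
  · rw [key (n + 1) (by omega) h1] at a1; norm_num at a1
  · rw [key (n + 2) (by omega) h1] at a2; norm_num at a2
  · rw [key (n + 3) (by omega) h1] at a3; norm_num at a3

lemma no4_of_listed {F : ℕ → ℤ} (hF : CM F) (h : Listed F) : No4 F := by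
  rcases h with h | h | h | h | h | h | h | h
  · exact no4_leg hF 3 _ tab3 rfl (by decide +kernel) h
  · exact no4_leg hF 5 _ tab5 rfl (by decide +kernel) h
  · exact no4_leg hF 7 _ tab7 rfl (by decide +kernel) h
  · exact no4_leg hF 11 _ tab11 rfl (by decide +kernel) h
  · exact no4_leg hF 13 _ tab13 rfl (by decide +kernel) h
  · exact no4_leg hF 53 _ tab53 rfl (by decide +kernel) h
  · have hmu : MU (fun n => ZMod.χ₄ (n : ZMod 4)) :=
      ⟨(chF_rc ZMod.χ₄).one, fun a b _ _ => (chF_rc ZMod.χ₄).mul a b⟩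
    have key : ∀ n, 0 < n → n % 4 = 3 → F n = -1 := by
      intro n hn hn4
      have h1 : F n = ZMod.χ₄ (n : ZMod 4) :=
        MU.eq_of_primes hF.mu hmu n hn (fun q hq hqn => h q hq (by
          rintro rfl
          have : n % 2 = 0 := Nat.mod_eq_zero_of_dvd hqn
          omega))
      rw [h1, ZMod.χ₄_nat_eq_if_mod_four, if_neg (by omega), if_neg (by omega)]
    intro n hn ⟨a0, a1, a2, a3⟩
    have h4 : n % 4 = 0 ∨ n % 4 = 1 ∨ n % 4 = 2 ∨ n % 4 = 3 := by omega
    rcases h4 with h4 | h4 | h4 | h4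
    · rw [key (n + 3) (by omega) (by omega)] at a3; norm_num at a3
    · rw [key (n + 2) (by omega) (by omega)] at a2; norm_num at a2
    · rw [key (n + 1) (by omega) (by omega)] at a1; norm_num at a1
    · rw [key n hn h4] at a0; norm_num at a0
  · have key : ∀ n, 0 < n → n % 4 = 2 → F n = -1 := by
      intro n hn hn4
      obtain ⟨u, hu⟩ : ∃ u, n = 2 * u := ⟨n / 2, by omega⟩
      have hu0 : 0 < u := by omega
      have h1 : F u = 1 :=
        MU.eq_of_primes hF.mu (G := fun _ => 1) ⟨rfl, fun _ _ _ _ => by ring⟩ u hu0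
          (fun q hq hqn => h.2 q hq (by
            rintro rfl
            have : u % 2 = 0 := Nat.mod_eq_zero_of_dvd hqn
            omega))
      rw [hu, hF.mul 2 u (by norm_num) hu0, h.1, h1]; norm_num
    intro n hn ⟨a0, a1, a2, a3⟩
    have h4 : n % 4 = 0 ∨ n % 4 = 1 ∨ n % 4 = 2 ∨ n % 4 = 3 := by omega
    rcases h4 with h4 | h4 | h4 | h4
    · rw [key (n + 2) (by omega) (by omega)] at a2; norm_num at a2
    · rw [key (n + 1) (by omega) (by omega)] at a1; norm_num at a1
    · rw [key n hn h4] at a0; norm_num at a0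
    · rw [key (n + 3) (by omega) (by omega)] at a3; norm_num at a3

/-! ### each of the 15 functions is close to a real character -/

lemma summable_dev {F X : ℕ → ℤ} (l : ℕ) (h : ∀ q, q.Prime → q ≠ l → F q = X q) :
    Summable (fun p : Dev F X => (1 : ℝ) / ((p : ℕ) : ℝ)) := by
  have hfin : (Dev F X).Finite := by
    refine (Set.finite_singleton l).subset (fun p hp => ?_)
    by_contra hne
    exact hp.2 (h p hp.1 hne)
  have : Finite (Dev F X) := hfin
  exact summable_of_hasFiniteSupport (Set.toFinite _)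

lemma close_of_listed {F : ℕ → ℤ} (h : Listed F) : ∃ (m : ℕ) (χ : DirichletCharacter ℤ m), 0 < m ∧
    Summable (fun p : Dev F (chF χ) => (1 : ℝ) / ((p : ℕ) : ℝ)) := by
  have odd : ∀ (l : ℕ) (_ : Fact l.Prime), (∀ q, q.Prime → q ≠ l → F q = legendreSym l q) →
      ∃ (m : ℕ) (χ : DirichletCharacter ℤ m), 0 < m ∧
        Summable (fun p : Dev F (chF χ) => (1 : ℝ) / ((p : ℕ) : ℝ)) := by
    intro l hl hv
    refine ⟨l, quadraticChar (ZMod l), hl.out.pos, summable_dev l (fun q hq hne => ?_)⟩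
    rw [hv q hq hne]
    simp [chF, legendreSym]
  rcases h with h | h | h | h | h | h | h | h
  · exact odd 3 inferInstance h
  · exact odd 5 inferInstance h
  · exact odd 7 inferInstance h
  · exact odd 11 inferInstance h
  · exact odd 13 inferInstance h
  · exact odd 53 inferInstance h
  · exact ⟨4, ZMod.χ₄, by norm_num, summable_dev 2 (fun q hq hne => h q hq hne)⟩
  · refine ⟨1, 1, by norm_num, summable_dev 2 (fun q hq hne => ?_)⟩
    rw [h.2 q hq hne]
    have h1 : IsUnit (q : ZMod 1) := isUnit_of_subsingleton _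
    exact (MulChar.one_apply h1).symm

theorem classify {F : ℕ → ℤ} (hF : CM F) : Listed F ↔ (No4 F ∧
    ∃ (m : ℕ) (χ : DirichletCharacter ℤ m), 0 < m ∧
      Summable (fun p : Dev F (chF χ) => (1 : ℝ) / ((p : ℕ) : ℝ))) := by
  constructor
  · intro h
    exact ⟨no4_of_listed hF h, close_of_listed h⟩
  · rintro ⟨hN, m, χ, hm, hs⟩
    obtain ⟨i, hi, h⟩ := main hF hN hm (chF_rc χ) hs
    exact listed_of_index hi h

theorem ncard_listed : {f : ℕ+ →* ℤˣ | Listed (toF f)}.ncard = 15 := by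
  have h1 : {f : ℕ+ →* ℤˣ | Listed (toF f)} = Set.range (fun i : Fin 15 => fi i.val) := by
    ext f
    rw [Set.mem_ofPred_eq, Set.mem_range]
    constructor
    · intro h
      obtain ⟨i, hi, hv⟩ := index_of_listed (toF_cm f) h
      refine ⟨⟨i, by omega⟩, hom_ext_primes _ _ (fun q hq => ?_)⟩
      rw [hv q hq]
      exact fi_prime i q hq
    · rintro ⟨i, rfl⟩
      exact listed_of_index (i := i.val) (by have := i.2; omega) (fun q hq => fi_prime i.val q hq)
  have hinj : Function.Injective (fun i : Fin 15 => fi i.val) := by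
    intro i j h
    exact Fin.ext (fi_inj i.val j.val (by have := i.2; omega) (by have := j.2; omega) h)
  rw [h1, ← Set.image_univ, Set.ncard_image_of_injective _ hinj, Set.ncard_univ, Nat.card_fin]

end Pool.Agent.TH910.Hud
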