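import Pool.Agent.TH910.HudIndep

/-!
The quadratic characters at one prime, and the final comparison.
-/

namespace Pool.Agent.TH910.Hud

lemma CM.pow {F : ℕ → ℤ} (h : CM F) (a : ℕ) (ha : 0 < a) (k : ℕ) : F (a ^ k) = F a ^ k := by
  induction k with
  | zero => simp [h.one]
  | succ k ih => rw [pow_succ, h.mul _ _ (Nat.pow_pos ha) ha, ih, pow_succ]

lemma CM.sq {F : ℕ → ℤ} (h : CM F) {a : ℕ} (ha : 0 < a) : F a * F a = 1 := by
  rcases h.sgn a ha with h | h <;> rw [h] <;> norm_num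

/-- for an odd prime the component only depends on the residue modulo that prime -/
lemma odd_per {Φ : ℕ → ℤ} (hΦ : CM Φ) {p m : ℕ} (hp : p.Prime) (hodd : p % 2 = 1) (hm : 0 < m)
    (hper : ∀ u v, 0 < u → 0 < v → ¬ p ∣ u → ¬ p ∣ v → u ≡ v [MOD p ^ m] → Φ u = Φ v)
    (u v : ℕ) (hu : 0 < u) (hv : 0 < v) (hpu : ¬ p ∣ u) (hpv : ¬ p ∣ v) (huv : u ≡ v [MOD p]) :
    Φ u = Φ v := by
  obtain ⟨k, rfl⟩ : ∃ k, m = k + 1 := ⟨m - 1, by omega⟩
  have h1 : (p : ℤ) ∣ (v : ℤ) - u := (Nat.modEq_iff_dvd).1 huv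
  have h2 := dvd_sub_pow_of_dvd_sub h1 k
  have h3 : u ^ p ^ k ≡ v ^ p ^ k [MOD p ^ (k + 1)] := by
    rw [Nat.modEq_iff_dvd]
    push_cast
    exact h2
  have h4 := hper (u ^ p ^ k) (v ^ p ^ k) (Nat.pow_pos hu) (Nat.pow_pos hv)
    (fun h => hpu (hp.dvd_of_dvd_pow h)) (fun h => hpv (hp.dvd_of_dvd_pow h)) h3
  rw [hΦ.pow u hu, hΦ.pow v hv] at h4
  have hod : Odd (p ^ k) := Odd.pow (Nat.odd_iff.2 hodd)
  have h5 : ∀ w, 0 < w → Φ w ^ p ^ k = Φ w := by
    intro w hw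
    rcases hΦ.sgn w hw with h | h
    · rw [h, one_pow]
    · rw [h, hod.neg_one_pow]
  rwa [h5 u hu, h5 v hv] at h4

lemma sq_mod (e : ℕ) : ∀ t : ℕ, t % 8 = 1 → ∃ w : ℕ, w % 2 = 1 ∧ w * w ≡ t [MOD 2 ^ (e + 3)] := by
  induction e with
  | zero =>
    intro t ht
    exact ⟨1, by norm_num, by simp [Nat.ModEq, ht]⟩
  | succ e ih =>
    intro t ht
    obtain ⟨w, hw, hwt⟩ := ih t ht
    obtain ⟨c, hc⟩ := (Nat.modEq_iff_dvd).1 hwt
    push_cast at hc
    rcases Int.even_or_odd' c with ⟨d, hd | hd⟩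
    · refine ⟨w, hw, ?_⟩
      rw [Nat.modEq_iff_dvd]
      refine ⟨d, ?_⟩
      push_cast
      rw [hc, hd]; ring
    · obtain ⟨v, hv⟩ : ∃ v, w = 2 * v + 1 := ⟨w / 2, by omega⟩
      refine ⟨w + 2 ^ (e + 2), ?_, ?_⟩
      · have : 2 ^ (e + 2) = 2 * 2 ^ (e + 1) := by ring
        omega
      · rw [Nat.modEq_iff_dvd]
        refine ⟨d - v - 2 ^ e, ?_⟩
        push_cast
        have h1 : (t : ℤ) = w * w + 2 ^ (e + 3) * c := by linarith
        rw [h1, hd, hv]
        push_cast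
        ring

lemma two_per {Φ : ℕ → ℤ} (hΦ : CM Φ) {m : ℕ}
    (hper : ∀ u v, 0 < u → 0 < v → ¬ 2 ∣ u → ¬ 2 ∣ v → u ≡ v [MOD 2 ^ m] → Φ u = Φ v)
    (u v : ℕ) (hu : 0 < u) (hv : 0 < v) (hpu : ¬ 2 ∣ u) (hpv : ¬ 2 ∣ v) (huv : u ≡ v [MOD 8]) :
    Φ u = Φ v := by
  have huv' : u % 8 = v % 8 := huv
  have h1 : u * v % 8 = 1 := by
    have h2 : u % 8 = 1 ∨ u % 8 = 3 ∨ u % 8 = 5 ∨ u % 8 = 7 := by omega
    rw [Nat.mul_mod, ← huv']
    rcases h2 with h | h | h | h <;> rw [h]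
  obtain ⟨w, hw, hwt⟩ := sq_mod m (u * v) h1
  have hw0 : 0 < w := by omega
  have hwt' : w * w ≡ u * v [MOD 2 ^ m] := hwt.of_dvd (pow_dvd_pow _ (by omega))
  have h3 := hper (w * w) (u * v) (Nat.mul_pos hw0 hw0) (Nat.mul_pos hu hv)
    (fun h => by
      rcases (Nat.Prime.dvd_mul Nat.prime_two).1 h with h | h <;> omega)
    (fun h => by
      rcases (Nat.Prime.dvd_mul Nat.prime_two).1 h with h | h
      · exact hpu h
      · exact hpv h) hwt'
  rw [hΦ.mul _ _ hw0 hw0, hΦ.mul _ _ hu hv, hΦ.sq hw0] at h3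
  rcases hΦ.sgn u hu with h | h <;> rcases hΦ.sgn v hv with h' | h' <;> rw [h, h'] at h3 ⊢ <;>
    norm_num at h3

/-- the `k`-th power of `r` modulo `p` for all nonzero residues, with matching parity -/
def rootOK (p r : ℕ) (R : List ℕ) : Bool :=
  (List.range p).all (fun a => Nat.beq a 0 || (List.range p).any (fun k =>
    Nat.beq (r ^ k % p) a && !(xor (Nat.beq (k % 2) 1) (mem' a R))))

lemma sg_ne {a : ℤ} (h : a = 1 ∨ a = -1) : ∃ b, a = sg b := by
  rcases h with h | h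
  · exact ⟨false, by simp [h, sg]⟩
  · exact ⟨true, by simp [h, sg]⟩

lemma sg_pow_even (b : Bool) {k : ℕ} (h : k % 2 = 0) : sg b ^ k = 1 := by
  have : Even k := Nat.even_iff.2 h
  cases b
  · simp [sg]
  · simp [sg, this.neg_one_pow]

lemma sg_pow_odd (b : Bool) {k : ℕ} (h : k % 2 = 1) : sg b ^ k = sg b := by
  have : Odd k := Nat.odd_iff.2 h
  cases b
  · simp [sg]
  · simp [sg, this.neg_one_pow]

/-- the candidates for the component at an odd prime -/
def oddAlts (p : ℕ) (R : List ℕ) : List (ℕ × Bool × ℕ × List ℕ) :=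
  [(p, false, p, []), (p, true, p, []), (p, false, p, R), (p, true, p, R)]

lemma odd_class {Φ : ℕ → ℤ} (hΦ : CM Φ) {p m : ℕ} (hp : p.Prime) (hodd : p % 2 = 1) (hm : 0 < m)
    (hper : ∀ u v, 0 < u → 0 < v → ¬ p ∣ u → ¬ p ∣ v → u ≡ v [MOD p ^ m] → Φ u = Φ v)
    (r : ℕ) (hr : 0 < r) (hrp : ¬ p ∣ r) (R : List ℕ) (hR : rootOK p r R = true) :
    ∃ d ∈ oddAlts p R, ∀ q, q.Prime → Φ q = sg (dval d q) := by
  obtain ⟨b, hb⟩ := sg_ne (hΦ.sgn r hr)
  obtain ⟨e, he⟩ := sg_ne (hΦ.sgn p hp.pos)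
  have key : ∀ q, q.Prime → q ≠ p → Φ q = cond (mem' (q % p) R) (sg b) 1 := by
    intro q hq hne
    have hpq : ¬ p ∣ q := fun h => hne ((Nat.prime_dvd_prime_iff_eq hp hq).1 h).symm
    have ha0 : q % p ≠ 0 := fun h => hpq (Nat.dvd_of_mod_eq_zero h)
    have ha1 : q % p < p := Nat.mod_lt _ hp.pos
    unfold rootOK at hR
    rw [List.all_eq_true] at hR
    have h1 := hR (q % p) (List.mem_range.2 ha1)
    rw [Bool.or_eq_true] at h1
    rcases h1 with h1 | h1
    · exact absurd (by simpa using h1) ha0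
    · rw [List.any_eq_true] at h1
      obtain ⟨k, -, hk⟩ := h1
      rw [Bool.and_eq_true] at hk
      have hk1 : r ^ k % p = q % p := by simpa using hk.1
      have hk2 : q ≡ r ^ k [MOD p] := hk1.symm
      have h2 := odd_per hΦ hp hodd hm hper q (r ^ k) hq.pos (Nat.pow_pos hr) hpq
        (fun h => hrp (hp.dvd_of_dvd_pow h)) hk2
      rw [h2, hΦ.pow r hr, hb]
      cases hmem : mem' (q % p) R with
      | false =>
        rw [hmem] at hk
        have h3 : ¬ k % 2 = 1 := fun h => by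
          have h4 := hk.2
          rw [h] at h4
          exact absurd h4 (by decide)
        simp only [cond_false]
        exact sg_pow_even b (by omega)
      | true =>
        rw [hmem] at hk
        have h3 : k % 2 = 1 := by simpa using hk.2
        simp only [cond_true]
        exact sg_pow_odd b h3
  have hval : ∀ q, q.Prime → q = p → ∀ L, Φ q = sg (dval (p, e, p, L) q) := by
    intro q _ h L
    rw [h, he]
    simp [dval]
  have hnb : ∀ q, q ≠ p → Nat.beq q p = false := by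
    intro q h
    rw [← Bool.not_eq_true]; simpa using h
  cases b with
  | false =>
    refine ⟨(p, e, p, []), by cases e <;> simp [oddAlts], fun q hq => ?_⟩
    by_cases h : q = p
    · exact hval q hq h []
    · rw [key q hq h]
      simp only [dval, hnb q h, cond_false, mem', sg]
      cases mem' (q % p) R <;> rfl
  | true =>
    refine ⟨(p, e, p, R), by cases e <;> simp [oddAlts], fun q hq => ?_⟩
    by_cases h : q = p
    · exact hval q hq h R
    · rw [key q hq h]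
      simp only [dval, hnb q h, cond_false, sg]
      cases mem' (q % p) R <;> rfl

/-- the candidates for the component at `2` -/
def twoAlts : List (ℕ × Bool × ℕ × List ℕ) :=
  [(2, false, 8, []), (2, true, 8, []), (2, false, 8, [3, 7]), (2, true, 8, [3, 7]),
   (2, false, 8, [5, 7]), (2, true, 8, [5, 7]), (2, false, 8, [3, 5]), (2, true, 8, [3, 5])]

lemma two_class {Φ : ℕ → ℤ} (hΦ : CM Φ) {m : ℕ}
    (hper : ∀ u v, 0 < u → 0 < v → ¬ 2 ∣ u → ¬ 2 ∣ v → u ≡ v [MOD 2 ^ m] → Φ u = Φ v) :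
    ∃ d ∈ twoAlts, ∀ q, q.Prime → Φ q = sg (dval d q) := by
  obtain ⟨e, he⟩ := sg_ne (hΦ.sgn 2 (by norm_num))
  obtain ⟨a, ha⟩ := sg_ne (hΦ.sgn 3 (by norm_num))
  obtain ⟨b, hb⟩ := sg_ne (hΦ.sgn 5 (by norm_num))
  have h7 : Φ 7 = sg a * sg b := by
    have h1 := two_per hΦ hper 7 15 (by norm_num) (by norm_num) (by norm_num) (by norm_num)
      (by decide)
    have h2 := hΦ.mul 3 5 (by norm_num) (by norm_num)
    norm_num at h2
    rw [h1, h2, ha, hb]
  have key : ∀ q, q.Prime → q ≠ 2 →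
      (q % 8 = 1 ∧ Φ q = 1) ∨ (q % 8 = 3 ∧ Φ q = sg a) ∨ (q % 8 = 5 ∧ Φ q = sg b) ∨
      (q % 8 = 7 ∧ Φ q = sg a * sg b) := by
    intro q hq hne
    have hodd : ¬ 2 ∣ q := fun h => hne ((Nat.prime_dvd_prime_iff_eq Nat.prime_two hq).1 h).symm
    have h2 : q % 8 = 1 ∨ q % 8 = 3 ∨ q % 8 = 5 ∨ q % 8 = 7 := by omega
    rcases h2 with h | h | h | h
    · refine Or.inl ⟨h, ?_⟩
      rw [two_per hΦ hper q 1 hq.pos one_pos hodd (by norm_num) h, hΦ.one]
    · refine Or.inr (Or.inl ⟨h, ?_⟩)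
      rw [two_per hΦ hper q 3 hq.pos (by norm_num) hodd (by norm_num) h, ha]
    · refine Or.inr (Or.inr (Or.inl ⟨h, ?_⟩))
      rw [two_per hΦ hper q 5 hq.pos (by norm_num) hodd (by norm_num) h, hb]
    · refine Or.inr (Or.inr (Or.inr ⟨h, ?_⟩))
      rw [two_per hΦ hper q 7 hq.pos (by norm_num) hodd (by norm_num) h, h7]
  have hval : ∀ q, q.Prime → q = 2 → ∀ L, Φ q = sg (dval (2, e, 8, L) q) := by
    intro q _ h L
    rw [h, he]
    simp [dval]
  have hnb : ∀ q, q ≠ 2 → Nat.beq q 2 = false := by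
    intro q h
    rw [← Bool.not_eq_true]; simpa using h
  have gen : ∀ L, (∀ c, (c = 1 ∧ mem' 1 L = false) ∨ (c = 3 ∧ mem' 3 L = a) ∨
      (c = 5 ∧ mem' 5 L = b) ∨ (c = 7 ∧ mem' 7 L = xor a b) ∨
      (c ≠ 1 ∧ c ≠ 3 ∧ c ≠ 5 ∧ c ≠ 7)) → ∀ q, q.Prime → Φ q = sg (dval (2, e, 8, L) q) := by
    intro L hL q hq
    by_cases h : q = 2
    · exact hval q hq h L
    · simp only [dval, hnb q h, cond_false]
      have hq8 := hL (q % 8)
      rcases key q hq h with ⟨h1, h2⟩ | ⟨h1, h2⟩ | ⟨h1, h2⟩ | ⟨h1, h2⟩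
      · rw [h2, h1]; rw [h1] at hq8
        have : mem' 1 L = false := by
          rcases hq8 with h | h | h | h | h
          · exact h.2
          all_goals omega
        rw [this]; simp [sg]
      · rw [h2, h1]; rw [h1] at hq8
        have : mem' 3 L = a := by
          rcases hq8 with h | h | h | h | h
          · omega
          · exact h.2
          all_goals omega
        rw [this]
      · rw [h2, h1]; rw [h1] at hq8
        have : mem' 5 L = b := by
          rcases hq8 with h | h | h | h | h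
          · omega
          · omega
          · exact h.2
          all_goals omega
        rw [this]
      · rw [h2, h1]; rw [h1] at hq8
        have : mem' 7 L = xor a b := by
          rcases hq8 with h | h | h | h | h
          · omega
          · omega
          · omega
          · exact h.2
          · omega
        rw [this, sg_xor]
  have cov : ∀ L, mem' 1 L = false → mem' 3 L = a → mem' 5 L = b → mem' 7 L = xor a b →
      ∀ q, q.Prime → Φ q = sg (dval (2, e, 8, L) q) := by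
    intro L h1 h3 h5 h7
    refine gen L (fun c => ?_)
    by_cases c1 : c = 1
    · exact Or.inl ⟨c1, h1⟩
    by_cases c3 : c = 3
    · exact Or.inr (Or.inl ⟨c3, h3⟩)
    by_cases c5 : c = 5
    · exact Or.inr (Or.inr (Or.inl ⟨c5, h5⟩))
    by_cases c7 : c = 7
    · exact Or.inr (Or.inr (Or.inr (Or.inl ⟨c7, h7⟩)))
    exact Or.inr (Or.inr (Or.inr (Or.inr ⟨c1, c3, c5, c7⟩)))
  cases a <;> cases b
  · exact ⟨(2, e, 8, []), by cases e <;> simp [twoAlts], cov [] rfl rfl rfl rfl⟩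
  · exact ⟨(2, e, 8, [5, 7]), by cases e <;> simp [twoAlts], cov [5, 7] rfl rfl rfl rfl⟩
  · exact ⟨(2, e, 8, [3, 7]), by cases e <;> simp [twoAlts], cov [3, 7] rfl rfl rfl rfl⟩
  · exact ⟨(2, e, 8, [3, 5]), by cases e <;> simp [twoAlts], cov [3, 5] rfl rfl rfl rfl⟩

end Pool.Agent.TH910.Hud
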