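import Pool.Agent.TH910.HudLocal

/-!
The independence statement: no window of the product of the two components at independent
positions is constantly `+1`.
-/

namespace Pool.Agent.TH910.Hud

/-- the arithmetic behind the value at one position -/
lemma calc_value {F Φ K X X1 X2 : ℕ → ℤ} {m p0 M' A B : ℕ} (hm : 0 < m)
    (hF : CM F) (hX : RC m X) (hΦ : CM Φ) (hK : CM K) (hp0 : p0.Prime)
    (hA : A = p0 ^ m) (hB : B = M' ^ m) (hcop : Nat.Coprime p0 M')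
    (h1 : Comp A X1) (h2 : Comp B X2) (h12 : ∀ w, X w = X1 w * X2 w)
    (hΦ0 : Φ p0 = F p0 * X2 p0) (hΦ1 : ∀ q, q.Prime → q ≠ p0 → Φ q = X1 q)
    (hK0 : ∀ q, q.Prime → q ∣ M' → K q = F q * X1 q)
    (hK1 : ∀ q, q.Prime → ¬ q ∣ M' → K q = X2 q)
    {N x b z : ℕ} (hN : 0 < N) (hx : 0 < x) (hb : 0 < b) (hz : 0 < z)
    (hcb : Nat.Coprime b M')
    (hNx : N ≡ x [MOD p0 ^ (x + m)]) (hNz : b * N ≡ z [MOD M' ^ (z + m)])
    (hgood : ∀ q, q.Prime → q ∣ N → ¬ q ∣ p0 → ¬ q ∣ M' → F q = X q) :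
    F N = Φ x * (K z * K b) := by
  have hcA : Nat.Coprime p0 B := by rw [hB]; exact Nat.Coprime.pow_right _ hcop
  obtain ⟨s0, x0, k0, hx1, hs0, hx0, hs0d, hk0, hx0c, hs0p⟩ := split_part p0 x hx
  obtain ⟨s, z0, k, hz1, hs, hz0, hsd, hk, hz0c, hsp⟩ := split_part M' z hz
  -- the part at p0
  have e1 : 1 * N ≡ s0 * x0 [MOD p0 ^ (k0 + m)] := by
    rw [one_mul, ← hx1]
    exact hNx.of_dvd (pow_dvd_pow _ (by omega))
  obtain ⟨N0, hN0, hN0x⟩ := local_part hs0d (Nat.coprime_one_left p0) hs0 e1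
  rw [one_mul] at hN0x
  have e2 : b * N ≡ s * z0 [MOD M' ^ (k + m)] := by
    rw [← hz1]
    exact hNz.of_dvd (pow_dvd_pow _ (by omega))
  obtain ⟨N1, hN1, hN1z⟩ := local_part hsd hcb hs e2
  have hcs : Nat.Coprime s0 s := by
    refine Nat.Coprime.coprime_dvd_left hs0d (Nat.Coprime.pow_left _ ?_)
    exact Nat.Coprime.coprime_dvd_right hsd (Nat.Coprime.pow_right _ hcop)
  have h3 : s0 ∣ s * N1 := by rw [← hN1, hN0]; exact Dvd.intro _ rfl
  obtain ⟨R, hR⟩ := hcs.dvd_of_dvd_mul_left h3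
  have hNsR : N = s * (s0 * R) := by rw [hN1, hR]
  have hR0 : 0 < R := by
    rcases Nat.eq_zero_or_pos R with h0 | h0
    · rw [h0] at hNsR; simp at hNsR; omega
    · exact h0
  have hN0R : N0 = s * R := by
    have h4 : s0 * N0 = s0 * (s * R) := by rw [← hN0, hNsR]; ring
    exact Nat.eq_of_mul_eq_mul_left hs0 h4
  -- coprimality
  have hcRp : ¬ p0 ∣ R := by
    intro hd
    have h5 : p0 ∣ N0 := by rw [hN0R]; exact Dvd.dvd.mul_left hd _
    have h6 : N0 ≡ x0 [MOD p0] := hN0x.of_dvd (dvd_pow_self _ hm.ne')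
    have h7 : p0 ∣ x0 := (Nat.modEq_zero_iff_dvd).1 (h6.symm.trans ((Nat.modEq_zero_iff_dvd).2 h5))
    have h8 := Nat.dvd_gcd h7 (dvd_refl p0)
    rw [Nat.Coprime.gcd_eq_one hx0c] at h8
    exact hp0.one_lt.ne' (Nat.dvd_one.1 h8)
  have hcRM : ∀ q, q.Prime → q ∣ R → ¬ q ∣ M' := by
    intro q hq hqR hqM
    have h5 : b * N1 ≡ z0 [MOD q] := hN1z.of_dvd (hqM.trans (dvd_pow_self _ hm.ne'))
    have h6 : q ∣ b * N1 := by rw [hR]; exact Dvd.dvd.mul_left (Dvd.dvd.mul_left hqR _) _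
    have h7 : q ∣ z0 := (Nat.modEq_zero_iff_dvd).1 (h5.symm.trans ((Nat.modEq_zero_iff_dvd).2 h6))
    have h8 := Nat.dvd_gcd h7 hqM
    rw [Nat.Coprime.gcd_eq_one hz0c] at h8
    exact hq.one_lt.ne' (Nat.dvd_one.1 h8)
  have hcRA : Nat.Coprime R A := by
    rw [hA]; exact Nat.Coprime.pow_right _ ((Nat.Prime.coprime_iff_not_dvd hp0).2 hcRp).symm
  have hcRM' : Nat.Coprime R M' := Nat.Coprime.symm (by
    by_contra hc
    obtain ⟨q, hq, hqM, hqR⟩ := Nat.Prime.not_coprime_iff_dvd.1 hc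
    exact hcRM q hq hqR hqM)
  have hcRB : Nat.Coprime R B := by rw [hB]; exact Nat.Coprime.pow_right _ hcRM'
  -- values
  have hFR : F R = X R := by
    refine MU.eq_of_primes hF.mu ⟨hX.one, fun a b _ _ => hX.mul a b⟩ R hR0 ?_
    intro q hq hqR
    refine hgood q hq ?_ ?_ (hcRM q hq hqR)
    · rw [hNsR]; exact Dvd.dvd.mul_left (Dvd.dvd.mul_left hqR _) _
    · intro h
      rw [(Nat.prime_dvd_prime_iff_eq hq hp0).1 h] at hqR
      exact hcRp hqR
  have hFN : F N = F s * (F s0 * F R) := by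
    rw [hNsR, hF.mul _ _ hs (Nat.mul_pos hs0 hR0), hF.mul _ _ hs0 hR0]
  have hX1 : X1 s * X1 R = X1 x0 := by
    rw [← h1.mul, ← hN0R]
    exact h1.per _ _ (by rw [hA]; exact hN0x)
  have hX2 : X2 b * (X2 s0 * X2 R) = X2 z0 := by
    rw [← h2.mul, ← h2.mul, ← hR]
    exact h2.per _ _ (by rw [hB]; exact hN1z)
  have hx0p : ∀ q, q.Prime → q ∣ x0 → q ≠ p0 := by
    intro q hq hqx hqp
    rw [hqp] at hqx
    have h8 := Nat.dvd_gcd hqx (dvd_refl p0)
    rw [Nat.Coprime.gcd_eq_one hx0c] at h8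
    exact hp0.one_lt.ne' (Nat.dvd_one.1 h8)
  have hΦx0 : Φ x0 = X1 x0 :=
    MU.eq_of_primes hΦ.mu h1.mu x0 hx0 (fun q hq hqx => hΦ1 q hq (hx0p q hq hqx))
  have hΦs0 : Φ s0 = F s0 * X2 s0 := by
    refine MU.eq_of_primes hΦ.mu (hF.mu.prod h2.mu) s0 hs0 (fun q hq hqs => ?_)
    have := hs0p q hq hqs
    rw [(Nat.prime_dvd_prime_iff_eq hq hp0).1 this]
    exact hΦ0
  have hΦx : Φ x = F s0 * X2 s0 * (X1 s * X1 R) := by
    rw [hx1, hΦ.mul _ _ hs0 hx0, hΦs0, hΦx0, hX1]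
  have hKs : K s = F s * X1 s :=
    MU.eq_of_primes hK.mu (hF.mu.prod h1.mu) s hs (fun q hq hqs => hK0 q hq (hsp q hq hqs))
  have hKz0 : K z0 = X2 z0 := by
    refine MU.eq_of_primes hK.mu h2.mu z0 hz0 (fun q hq hqz => hK1 q hq ?_)
    intro hqM
    have h8 := Nat.dvd_gcd hqz hqM
    rw [Nat.Coprime.gcd_eq_one hz0c] at h8
    exact hq.one_lt.ne' (Nat.dvd_one.1 h8)
  have hKb : K b = X2 b := by
    refine MU.eq_of_primes hK.mu h2.mu b hb (fun q hq hqz => hK1 q hq ?_)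
    intro hqM
    have h8 := Nat.dvd_gcd hqz hqM
    rw [Nat.Coprime.gcd_eq_one hcb] at h8
    exact hq.one_lt.ne' (Nat.dvd_one.1 h8)
  have hKz : K z = F s * X1 s * (X2 b * (X2 s0 * X2 R)) := by
    rw [hz1, hK.mul _ _ hs hz0, hKs, hKz0, hX2]
  have hcsA : Nat.Coprime s A := by
    rw [hA]
    exact (Nat.Coprime.pow_left _ (Nat.Coprime.coprime_dvd_right hsd
      (Nat.Coprime.pow_right _ hcop))).symm
  have hcs0B : Nat.Coprime s0 B :=
    Nat.Coprime.coprime_dvd_left hs0d (Nat.Coprime.pow_left _ hcA)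
  have hcbB : Nat.Coprime b B := by rw [hB]; exact Nat.Coprime.pow_right _ hcb
  have q1 := h1.sq hcsA
  have q2 := h2.sq hcs0B
  have q3 := h2.sq hcbB
  rw [hFN, hFR, h12 R, hΦx, hKz, hKb]
  have : F s0 * X2 s0 * (X1 s * X1 R) * (F s * X1 s * (X2 b * (X2 s0 * X2 R)) * X2 b)
      = F s * (F s0 * (X1 R * X2 R)) * (X1 s * X1 s) * (X2 s0 * X2 s0) * (X2 b * X2 b) := by ring
  rw [this, q1, q2, q3]; ring

/-- the primes at which `F` differs from `X` -/
def Dev (F X : ℕ → ℤ) : Set ℕ := {p | p.Prime ∧ F p ≠ X p}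

theorem indep {F X : ℕ → ℤ} {m : ℕ} (hF : CM F) (hN : No4 F) (hm : 0 < m) (hX : RC m X)
    (hs : Summable (fun p : Dev F X => (1 : ℝ) / ((p : ℕ) : ℝ)))
    (p0 : ℕ) (hp0 : p0.Prime) (Y : ℕ) :
    ∃ Φ K : ℕ → ℤ, CM Φ ∧ CM K ∧ (∀ q, q.Prime → q ≤ Y → F q = Φ q * K q) ∧
      (∀ u v, 0 < u → 0 < v → ¬ p0 ∣ u → ¬ p0 ∣ v → u ≡ v [MOD p0 ^ m] → Φ u = Φ v) ∧
      ∀ x a j, 0 < x → 0 < a →
        ¬ ∀ t < 4, Φ (x + t) * (K (a + t * p0 ^ j) * K (p0 ^ j)) = 1 := by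
  classical
  obtain ⟨y, hy⟩ := sieve (Dev F X) (fun p hp => hp.1) hs
  set Y' : ℕ := Y + y + m with hY'
  set S : Finset ℕ := (Finset.range (Y' + 1)).filter (fun q => q.Prime ∧ q ≠ p0) with hS
  set M' : ℕ := ∏ q ∈ S, q with hM'
  have hM'0 : 0 < M' := Finset.prod_pos (fun q hq => (Finset.mem_filter.1 hq).2.1.pos)
  have hdvd : ∀ q, q.Prime → (q ∣ M' ↔ q ≤ Y' ∧ q ≠ p0) := by
    intro q hq
    constructor
    · intro h
      obtain ⟨r, hr, hqr⟩ := (Prime.dvd_finsetProd_iff hq.prime _).1 h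
      have hr' := Finset.mem_filter.1 hr
      rw [(Nat.prime_dvd_prime_iff_eq hq hr'.2.1).1 hqr]
      exact ⟨by have := Finset.mem_range.1 hr'.1; omega, hr'.2.2⟩
    · intro h
      exact Finset.dvd_prod_of_mem _ (Finset.mem_filter.2 ⟨Finset.mem_range.2 (by omega), hq, h.2⟩)
  have hcop : Nat.Coprime p0 M' := by
    rw [Nat.Prime.coprime_iff_not_dvd hp0, hdvd p0 hp0]
    simp
  set A := p0 ^ m with hA
  set B := M' ^ m with hB
  have hAB : Nat.Coprime A B := Nat.Coprime.pow _ _ hcop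
  have hmAB : m ∣ A * B := by
    rw [hA, hB, ← mul_pow]
    refine dvd_pow_self_of_primes _ m hm (fun q hq hqm => ?_)
    by_cases h : q = p0
    · rw [h]; exact Dvd.intro _ rfl
    · refine Dvd.dvd.mul_left ((hdvd q hq).2 ⟨?_, h⟩) _
      have := Nat.le_of_dvd hm hqm
      omega
  obtain ⟨X1, X2, h1, h2, h12⟩ := decomp hX hAB hmAB
  have hp0B : Nat.Coprime p0 B := Nat.Coprime.pow_right _ hcop
  have hqA : ∀ q, q.Prime → q ≠ p0 → Nat.Coprime q A := fun q hq hne =>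
    Nat.Coprime.pow_right _ ((Nat.coprime_primes hq hp0).2 hne)
  obtain ⟨Φ, hΦ, hΦv⟩ := exists_cm (fun q => if q = p0 then F p0 * X2 p0 else X1 q) (by
    intro q hq
    by_cases h : q = p0
    · simp only [h, if_true]
      rcases hF.sgn p0 hp0.pos with h' | h' <;> rcases h2.sgn p0 hp0B with h'' | h'' <;>
        rw [h', h''] <;> simp
    · simp only [h, if_false]
      exact h1.sgn q (hqA q hq h))
  obtain ⟨K, hK, hKv⟩ := exists_cm (fun q => if q ∣ M' then F q * X1 q else X2 q) (by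
    intro q hq
    by_cases h : q ∣ M'
    · simp only [h, if_true]
      have hne := ((hdvd q hq).1 h).2
      rcases hF.sgn q hq.pos with h' | h' <;> rcases h1.sgn q (hqA q hq hne) with h'' | h'' <;>
        rw [h', h''] <;> simp
    · simp only [h, if_false]
      exact h2.sgn q (Nat.Coprime.pow_right _ ((Nat.Prime.coprime_iff_not_dvd hq).2 h)))
  have hΦ0 : Φ p0 = F p0 * X2 p0 := by rw [hΦv p0 hp0]; simp
  have hΦ1 : ∀ q, q.Prime → q ≠ p0 → Φ q = X1 q := by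
    intro q hq hne; rw [hΦv q hq]; simp [hne]
  have hK0 : ∀ q, q.Prime → q ∣ M' → K q = F q * X1 q := by
    intro q hq h; rw [hKv q hq]; simp [h]
  have hK1 : ∀ q, q.Prime → ¬ q ∣ M' → K q = X2 q := by
    intro q hq h; rw [hKv q hq]; simp [h]
  have hΦu : ∀ u, 0 < u → ¬ p0 ∣ u → Φ u = X1 u := by
    intro u hu hpu
    refine MU.eq_of_primes hΦ.mu h1.mu u hu (fun q hq hqu => hΦ1 q hq ?_)
    rintro rfl
    exact hpu hqu
  refine ⟨Φ, K, hΦ, hK, ?_, ?_, ?_⟩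
  · intro q hq hqY
    by_cases h : q = p0
    · rw [h, hΦ0, hK1 p0 hp0 (by rw [hdvd p0 hp0]; simp)]
      have := h2.sq hp0B
      linear_combination (-F p0) * this
    · have hqM : q ∣ M' := (hdvd q hq).2 ⟨by omega, h⟩
      rw [hΦ1 q hq h, hK0 q hq hqM]
      have := h1.sq (hqA q hq h)
      linear_combination (-F q) * this
  · intro u v hu hv hpu hpv huv
    rw [hΦu u hu hpu, hΦu v hv hpv]
    exact h1.per u v huv
  · intro x a j hx ha hall
    set b := p0 ^ j with hb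
    have hb0 : 0 < b := Nat.pow_pos hp0.pos
    have hcb : Nat.Coprime b M' := Nat.Coprime.pow_left _ hcop
    set L1 := x + 4 + m with hL1
    set L2 := a + 4 * b + m with hL2
    have hc1 : Nat.Coprime b (M' ^ L2) := Nat.Coprime.pow_right _ hcb
    obtain ⟨c0, hc0⟩ := Nat.chineseRemainder hc1 0 a
    obtain ⟨c, hc⟩ := (Nat.modEq_zero_iff_dvd).1 hc0.1
    have hbc : b * c ≡ a [MOD M' ^ L2] := by rw [← hc]; exact hc0.2
    have hc2 : Nat.Coprime (p0 ^ L1) (M' ^ L2) := Nat.Coprime.pow _ _ hcop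
    obtain ⟨n0, hn0⟩ := Nat.chineseRemainder hc2 x c
    obtain ⟨n, hn, hnn0, hgood⟩ := hy (p0 ^ L1 * M' ^ L2) n0
      (Nat.mul_pos (Nat.pow_pos hp0.pos) (Nat.pow_pos hM'0)) (by
        intro p hp hpy
        by_cases h : p = p0
        · rw [h]
          exact Dvd.dvd.mul_right (dvd_pow_self _ (by omega)) _
        · refine Dvd.dvd.mul_left (((hdvd p hp.1).2 ⟨by omega, h⟩).trans
            (dvd_pow_self _ (by omega))) _)
    have hnx : n ≡ x [MOD p0 ^ L1] :=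
      (hnn0.of_dvd (Dvd.intro _ rfl)).trans hn0.1
    have hnc : n ≡ c [MOD M' ^ L2] :=
      (hnn0.of_dvd (Dvd.intro_left _ rfl)).trans hn0.2
    have hval : ∀ t < 4, F (n + t) = 1 := by
      intro t ht
      rw [← hall t ht]
      refine calc_value hm hF hX hΦ hK hp0 hA hB hcop h1 h2 h12 hΦ0 hΦ1 hK0 hK1 (by omega)
        (by omega) hb0 (by omega) hcb ?_ ?_ ?_
      · exact (hnx.add_right t).of_dvd (pow_dvd_pow _ (by omega))
      · have h5 : b * (n + t) ≡ a + t * b [MOD M' ^ L2] := by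
          have h6 : b * n ≡ a [MOD M' ^ L2] := (Nat.ModEq.mul_left b hnc).trans hbc
          have h7 := h6.add_right (b * t)
          have e1 : b * (n + t) = b * n + b * t := by ring
          have e2 : a + t * b = a + b * t := by ring
          rw [e1, e2]; exact h7
        refine h5.of_dvd (pow_dvd_pow _ ?_)
        have : t * b ≤ 4 * b := Nat.mul_le_mul_right _ ht.le
        omega
      · intro q hq hqN hqp hqM
        by_contra hne
        have h8 := hgood q ⟨hq, hne⟩ t ht hqN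
        rcases (Nat.Prime.dvd_mul hq).1 h8 with h9 | h9
        · exact hqp (hq.dvd_of_dvd_pow h9)
        · exact hqM (hq.dvd_of_dvd_pow h9)
    exact hN n hn ⟨hval 0 (by norm_num), hval 1 (by norm_num), hval 2 (by norm_num),
      hval 3 (by norm_num)⟩

end Pool.Agent.TH910.Hud
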