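import Pool.Agent.TH910.HudTree
import Pool.Agent.TH910.HudSieve

/-!
Local independence: a completely multiplicative sign function close to a real character splits,
on suitable integers, into a part depending on one prime and a part depending on the others.
-/

namespace Pool.Agent.TH910.Hud

/-- multiplicative on the positive integers, with value `1` at `1` -/
structure MU (F : ℕ → ℤ) : Prop where
  one : F 1 = 1
  mul : ∀ a b, 0 < a → 0 < b → F (a * b) = F a * F b

lemma CM.mu {F : ℕ → ℤ} (h : CM F) : MU F := ⟨h.one, h.mul⟩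

lemma MU.prod {F G : ℕ → ℤ} (hF : MU F) (hG : MU G) : MU (fun n => F n * G n) :=
  ⟨by simp [hF.one, hG.one], fun a b ha hb => by simp only [hF.mul a b ha hb, hG.mul a b ha hb]; ring⟩

lemma MU.eq_of_primes {F G : ℕ → ℤ} (hF : MU F) (hG : MU G) :
    ∀ n, 0 < n → (∀ q, q.Prime → q ∣ n → F q = G q) → F n = G n := by
  intro n
  induction n using Nat.strong_induction_on with
  | _ n ih =>
    intro hn h
    by_cases h1 : n = 1
    · rw [h1, hF.one, hG.one]
    · have hq := Nat.minFac_prime h1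
      obtain ⟨k, hk⟩ := Nat.minFac_dvd n
      have hk0 : 0 < k := by
        rcases Nat.eq_zero_or_pos k with h0 | h0
        · rw [h0] at hk; omega
        · exact h0
      have hlt : k < n := by
        have h2 : k < n.minFac * k := by
          have := hq.two_le
          nlinarith
        rw [hk]; exact lt_of_lt_of_eq h2 (by rw [← hk])
      have h3 : F n = F (n.minFac * k) := by rw [← hk]
      have h4 : G n = G (n.minFac * k) := by rw [← hk]
      rw [h3, h4, hF.mul _ _ hq.pos hk0, hG.mul _ _ hq.pos hk0,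
        h _ hq (Nat.minFac_dvd n), ih k hlt hk0 (fun q hq' hqk => h q hq' (by
          rw [hk]; exact Dvd.dvd.mul_left hqk _))]

lemma exists_cm (v : ℕ → ℤ) (hv : ∀ q, q.Prime → v q = 1 ∨ v q = -1) :
    ∃ G : ℕ → ℤ, CM G ∧ ∀ q, q.Prime → G q = v q := by
  classical
  set G : ℕ → ℤ := fun n => n.factorization.prod (fun q k => v q ^ k) with hG
  have hmul : ∀ a b, 0 < a → 0 < b → G (a * b) = G a * G b := by
    intro a b ha hb
    simp only [hG]
    rw [Nat.factorization_mul ha.ne' hb.ne', Finsupp.prod_add_index']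
    · intro q; simp
    · intro q k l; exact pow_add _ _ _
  have hpr : ∀ q, q.Prime → G q = v q := by
    intro q hq
    simp only [hG]
    rw [hq.factorization, Finsupp.prod_single_index] <;> simp
  have hone : G 1 = 1 := by simp [hG]
  refine ⟨G, ⟨hmul, ?_⟩, hpr⟩
  intro n
  induction n using Nat.strong_induction_on with
  | _ n ih =>
    intro hn
    by_cases h1 : n = 1
    · rw [h1]; exact Or.inl hone
    · have hq := Nat.minFac_prime h1
      obtain ⟨k, hk⟩ := Nat.minFac_dvd n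
      have hk0 : 0 < k := by
        rcases Nat.eq_zero_or_pos k with h0 | h0
        · rw [h0] at hk; omega
        · exact h0
      have hlt : k < n := by
        have h2 : k < n.minFac * k := by
          have := hq.two_le
          nlinarith
        rw [hk]; exact lt_of_lt_of_eq h2 (by rw [← hk])
      have h3 : G n = G (n.minFac * k) := by rw [← hk]
      rw [h3, hmul _ _ hq.pos hk0, hpr _ hq]
      rcases hv _ hq with h | h <;> rcases ih k hlt hk0 with h' | h' <;> rw [h, h'] <;> simp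

lemma split_part (Q : ℕ) : ∀ T, 0 < T → ∃ s z k, T = s * z ∧ 0 < s ∧ 0 < z ∧ s ∣ Q ^ k ∧ k ≤ T ∧
    Nat.Coprime z Q ∧ ∀ q, q.Prime → q ∣ s → q ∣ Q := by
  intro T
  induction T using Nat.strong_induction_on with
  | _ T ih =>
    intro hT
    by_cases hc : Nat.Coprime T Q
    · exact ⟨1, T, 0, by simp, one_pos, hT, by simp, Nat.zero_le _, hc, fun q hq h =>
        (hq.one_lt.ne' (Nat.dvd_one.1 h)).elim⟩
    · obtain ⟨q, hq, ⟨T', hT'⟩, hqQ⟩ := Nat.Prime.not_coprime_iff_dvd.1 hc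
      have hT0 : 0 < T' := by
        rcases Nat.eq_zero_or_pos T' with h0 | h0
        · rw [h0] at hT'; omega
        · exact h0
      have hlt : T' < T := by
        have := hq.two_le
        rw [hT']; nlinarith
      obtain ⟨s, z, k, h1, h2, h3, h4, h5, h6, h7⟩ := ih T' hlt hT0
      refine ⟨q * s, z, k + 1, ?_, Nat.mul_pos hq.pos h2, h3, ?_, by omega, h6, ?_⟩
      · rw [hT', h1]; ring
      · rw [pow_succ, mul_comm]; exact Nat.mul_dvd_mul h4 hqQ
      · intro r hr hrs
        rcases (Nat.Prime.dvd_mul hr).1 hrs with h | h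
        · rw [(Nat.prime_dvd_prime_iff_eq hr hq).1 h]; exact hqQ
        · exact h7 r hr h

lemma local_part {Q s z k b N m : ℕ} (hs : s ∣ Q ^ k) (hcb : Nat.Coprime b Q) (hs0 : 0 < s)
    (h : b * N ≡ s * z [MOD Q ^ (k + m)]) : ∃ N1, N = s * N1 ∧ b * N1 ≡ z [MOD Q ^ m] := by
  have hsd : s ∣ Q ^ (k + m) := hs.trans (pow_dvd_pow _ (by omega))
  have h1 : b * N ≡ 0 [MOD s] := (h.of_dvd hsd).trans
    ((Nat.modEq_zero_iff_dvd).2 (Dvd.intro _ rfl))
  have h2 : s ∣ b * N := (Nat.modEq_zero_iff_dvd).1 h1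
  have hcs : Nat.Coprime s b :=
    Nat.Coprime.coprime_dvd_left hs (Nat.Coprime.pow_left _ hcb.symm)
  obtain ⟨N1, hN1⟩ := hcs.dvd_of_dvd_mul_left h2
  refine ⟨N1, hN1, ?_⟩
  obtain ⟨w, hw⟩ := hs
  have h3 : s * (b * N1) ≡ s * z [MOD s * (w * Q ^ m)] := by
    have e1 : s * (w * Q ^ m) = Q ^ (k + m) := by rw [pow_add, hw]; ring
    rw [e1]
    have e2 : s * (b * N1) = b * N := by rw [hN1]; ring
    rw [e2]; exact h
  have h4 := Nat.ModEq.mul_left_cancel' hs0.ne' h3
  exact h4.of_dvd (Dvd.intro_left _ rfl)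

/-- a real character modulo `m` -/
structure RC (m : ℕ) (X : ℕ → ℤ) : Prop where
  mul : ∀ a b, X (a * b) = X a * X b
  per : ∀ a b, a ≡ b [MOD m] → X a = X b
  sgn : ∀ a, Nat.Coprime a m → X a = 1 ∨ X a = -1
  zero : ∀ a, ¬ Nat.Coprime a m → X a = 0

lemma RC.one {m : ℕ} {X : ℕ → ℤ} (h : RC m X) : X 1 = 1 := by
  have h1 := h.mul 1 1
  rcases h.sgn 1 (Nat.coprime_one_left m) with h2 | h2
  · exact h2
  · rw [mul_one, h2] at h1; norm_num at h1

/-- the properties of a component -/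
structure Comp (A : ℕ) (X : ℕ → ℤ) : Prop where
  mul : ∀ a b, X (a * b) = X a * X b
  per : ∀ a b, a ≡ b [MOD A] → X a = X b
  sgn : ∀ a, Nat.Coprime a A → X a = 1 ∨ X a = -1

lemma Comp.one {m : ℕ} {X : ℕ → ℤ} (h : Comp m X) : X 1 = 1 := by
  have h1 := h.mul 1 1
  rcases h.sgn 1 (Nat.coprime_one_left m) with h2 | h2
  · exact h2
  · rw [mul_one, h2] at h1; norm_num at h1

lemma Comp.mu {m : ℕ} {X : ℕ → ℤ} (h : Comp m X) : MU X := ⟨h.one, fun a b _ _ => h.mul a b⟩

lemma Comp.sq {m : ℕ} {X : ℕ → ℤ} (h : Comp m X) {a : ℕ} (ha : Nat.Coprime a m) :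
    X a * X a = 1 := by
  rcases h.sgn a ha with h | h <;> rw [h] <;> norm_num

lemma comp_left {m : ℕ} {X : ℕ → ℤ} (hX : RC m X) {A B : ℕ} (hAB : Nat.Coprime A B)
    (hm : m ∣ A * B) : Comp A (fun u => X (Nat.chineseRemainder hAB u 1 : ℕ)) := by
  refine ⟨?_, ?_, ?_⟩
  · intro a b
    rw [← hX.mul]
    refine hX.per _ _ (Nat.ModEq.of_dvd hm ?_)
    rw [← Nat.modEq_and_modEq_iff_modEq_mul hAB]
    constructor
    · exact (Nat.chineseRemainder hAB (a * b) 1).2.1.trans
        (Nat.ModEq.mul (Nat.chineseRemainder hAB a 1).2.1 (Nat.chineseRemainder hAB b 1).2.1).symm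
    · have := Nat.ModEq.mul (Nat.chineseRemainder hAB a 1).2.2 (Nat.chineseRemainder hAB b 1).2.2
      exact (Nat.chineseRemainder hAB (a * b) 1).2.2.trans (by simpa using this.symm)
  · intro a b h
    refine hX.per _ _ (Nat.ModEq.of_dvd hm ?_)
    rw [← Nat.modEq_and_modEq_iff_modEq_mul hAB]
    exact ⟨(Nat.chineseRemainder hAB a 1).2.1.trans (h.trans
      (Nat.chineseRemainder hAB b 1).2.1.symm),
      (Nat.chineseRemainder hAB a 1).2.2.trans (Nat.chineseRemainder hAB b 1).2.2.symm⟩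
  · intro a ha
    refine hX.sgn _ (Nat.Coprime.coprime_dvd_right hm ?_)
    refine Nat.Coprime.mul_right ?_ ?_
    · have h1 : Nat.gcd (Nat.chineseRemainder hAB a 1 : ℕ) A = Nat.gcd a A :=
        (Nat.chineseRemainder hAB a 1).2.1.gcd_eq
      rw [Nat.Coprime, h1]; exact ha
    · have h1 : Nat.gcd (Nat.chineseRemainder hAB a 1 : ℕ) B = Nat.gcd 1 B :=
        (Nat.chineseRemainder hAB a 1).2.2.gcd_eq
      rw [Nat.Coprime, h1]; simp

lemma decomp {m : ℕ} {X : ℕ → ℤ} (hX : RC m X) {A B : ℕ} (hAB : Nat.Coprime A B)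
    (hm : m ∣ A * B) : ∃ X1 X2 : ℕ → ℤ, Comp A X1 ∧ Comp B X2 ∧ ∀ w, X w = X1 w * X2 w := by
  have hm' : m ∣ B * A := by rwa [mul_comm]
  refine ⟨_, _, comp_left hX hAB hm, comp_left hX hAB.symm hm', fun w => ?_⟩
  rw [← hX.mul]
  refine hX.per _ _ (Nat.ModEq.of_dvd hm ?_)
  rw [← Nat.modEq_and_modEq_iff_modEq_mul hAB]
  constructor
  · have := Nat.ModEq.mul (Nat.chineseRemainder hAB w 1).2.1
      (Nat.chineseRemainder hAB.symm w 1).2.2
    simpa using this.symm
  · have := Nat.ModEq.mul (Nat.chineseRemainder hAB w 1).2.2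
      (Nat.chineseRemainder hAB.symm w 1).2.1
    simpa using this.symm

lemma dvd_pow_self_of_primes (T : ℕ) : ∀ n, 0 < n → (∀ q, q.Prime → q ∣ n → q ∣ T) →
    n ∣ T ^ n := by
  intro n hn h
  obtain ⟨s, z, k, h1, h2, h3, h4, h5, h6, -⟩ := split_part T n hn
  have hz : z = 1 := by
    by_contra hz
    obtain ⟨q, hq, hqz⟩ := Nat.exists_prime_and_dvd hz
    have hqT := h q hq (by rw [h1]; exact Dvd.dvd.mul_left hqz _)
    have := Nat.dvd_gcd hqz hqT
    rw [Nat.Coprime.gcd_eq_one h6] at this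
    exact hq.one_lt.ne' (Nat.dvd_one.1 this)
  rw [hz, mul_one] at h1
  rw [h1] at h5 ⊢
  exact h4.trans (pow_dvd_pow _ h5)

end Pool.Agent.TH910.Hud
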