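import Pool.Agent.TH910.HudChar

/-!
A completely multiplicative sign function without four consecutive values `+1` that is close to a
real character agrees at all primes with one of the 15 functions.
-/

namespace Pool.Agent.TH910.Hud

/-- the candidates for the component at the special prime of the `i`-th function -/
def alts (i : ℕ) : List (ℕ × Bool × ℕ × List ℕ) :=
  cond (Nat.beq (gdat i).1 2) twoAlts (oddAlts (gdat i).1 (gdat i).2.2.2)

lemma class_all {Φ : ℕ → ℤ} (hΦ : CM Φ) {m : ℕ} (hm : 0 < m) (i : ℕ) (hi : i ≤ 14)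
    (hper : ∀ u v, 0 < u → 0 < v → ¬ (gdat i).1 ∣ u → ¬ (gdat i).1 ∣ v →
      u ≡ v [MOD (gdat i).1 ^ m] → Φ u = Φ v) :
    ∃ d ∈ alts i, ∀ q, q.Prime → Φ q = sg (dval d q) := by
  interval_cases i
  · exact odd_class hΦ (p := 3) (by norm_num) (by norm_num) hm hper 2 (by norm_num) (by norm_num)
      _ (by decide +kernel)
  · exact odd_class hΦ (p := 3) (by norm_num) (by norm_num) hm hper 2 (by norm_num) (by norm_num)
      _ (by decide +kernel)
  · exact two_class hΦ hper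
  · exact two_class hΦ hper
  · exact odd_class hΦ (p := 5) (by norm_num) (by norm_num) hm hper 2 (by norm_num) (by norm_num)
      _ (by decide +kernel)
  · exact odd_class hΦ (p := 5) (by norm_num) (by norm_num) hm hper 2 (by norm_num) (by norm_num)
      _ (by decide +kernel)
  · exact odd_class hΦ (p := 7) (by norm_num) (by norm_num) hm hper 3 (by norm_num) (by norm_num)
      _ (by decide +kernel)
  · exact odd_class hΦ (p := 7) (by norm_num) (by norm_num) hm hper 3 (by norm_num) (by norm_num)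
      _ (by decide +kernel)
  · exact odd_class hΦ (p := 11) (by norm_num) (by norm_num) hm hper 2 (by norm_num) (by norm_num)
      _ (by decide +kernel)
  · exact odd_class hΦ (p := 11) (by norm_num) (by norm_num) hm hper 2 (by norm_num) (by norm_num)
      _ (by decide +kernel)
  · exact odd_class hΦ (p := 13) (by norm_num) (by norm_num) hm hper 2 (by norm_num) (by norm_num)
      _ (by decide +kernel)
  · exact odd_class hΦ (p := 13) (by norm_num) (by norm_num) hm hper 2 (by norm_num) (by norm_num)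
      _ (by decide +kernel)
  · exact odd_class hΦ (p := 53) (by norm_num) (by norm_num) hm hper 2 (by norm_num) (by norm_num)
      _ (by decide +kernel)
  · exact odd_class hΦ (p := 53) (by norm_num) (by norm_num) hm hper 2 (by norm_num) (by norm_num)
      _ (by decide +kernel)
  · exact two_class hΦ hper

/-- values of a candidate on the primes up to 59 -/
def l1 (d : ℕ × Bool × ℕ × List ℕ) : List (ℕ × Bool) := PL.map (fun q => (q, dval d q))

/-- values of the complementary component on the primes up to 59 -/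
def l2 (d : ℕ × Bool × ℕ × List ℕ) (i : ℕ) : List (ℕ × Bool) :=
  PL.map (fun q => (q, xor (gb i q) (dval d q)))

/-- one position of a witness -/
def wit1 (d : ℕ × Bool × ℕ × List ℕ) (i : ℕ) (w : ℕ × ℕ × ℕ) (t : ℕ) : Bool :=
  Nat.beq (evp (l1 d) (w.1 + t) false).2 1 &&
  Nat.beq (evp (l2 d i) (w.2.1 + t * (gdat i).1 ^ w.2.2) false).2 1 &&
  Nat.beq (evp (l2 d i) ((gdat i).1 ^ w.2.2) false).2 1 &&
  !(xor (evp (l1 d) (w.1 + t) false).1
    (xor (evp (l2 d i) (w.2.1 + t * (gdat i).1 ^ w.2.2) false).1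
      (evp (l2 d i) ((gdat i).1 ^ w.2.2) false).1))

/-- a witness -/
def wit (d : ℕ × Bool × ℕ × List ℕ) (i : ℕ) (w : ℕ × ℕ × ℕ) : Bool :=
  Nat.ble 1 w.1 && Nat.ble 1 w.2.1 && wit1 d i w 0 && wit1 d i w 1 && wit1 d i w 2 && wit1 d i w 3

/-- the list of witnesses -/
def wl : ℕ → List (ℕ × ℕ × ℕ)
  | 0 => [(1, 1, 1), (2, 4, 0), (6, 1, 0)]
  | 1 => [(1, 2, 1), (9, 1, 0), (2, 1, 0)]
  | 2 => [(1, 1, 2), (3, 1, 0), (14, 1, 0), (2, 3, 0), (27, 1, 0), (4, 1, 0)]
  | 3 => [(1, 1, 2), (19, 1, 0), (2, 1, 0), (28, 1, 0), (4, 1, 0), (11, 1, 0), (22, 1, 0)]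
  | 4 => [(1, 1, 1), (5, 8, 0), (9, 2, 0)]
  | 5 => [(1, 2, 1), (4, 2, 0), (5, 3, 0)]
  | 6 => [(1, 1, 1), (5, 1, 0), (21, 4, 0)]
  | 7 => [(1, 3, 1), (7, 4, 0), (5, 1, 0)]
  | 8 => [(1, 1, 1), (10, 1, 0), (3, 8, 0)]
  | 9 => [(1, 2, 1), (3, 8, 0), (10, 1, 0)]
  | 10 => [(1, 1, 1), (12, 1, 0), (25, 10, 0)]
  | 11 => [(1, 2, 1), (12, 10, 0), (12, 1, 0)]
  | 12 => [(1, 6, 1), (52, 4, 0), (9, 50, 0)]
  | 13 => [(1, 2, 1), (9, 50, 0), (52, 4, 0)]
  | _ => [(1, 1, 2), (6, 1, 0), (5, 1, 0), (4, 1, 0), (9, 1, 0), (13, 1, 0)]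

/-- equality of data as a bit -/
def deq (d e : ℕ × Bool × ℕ × List ℕ) : Bool := decide (d = e)

/-- all candidates are the function itself or have a witness -/
def allOK : Bool := (List.range 15).all (fun i => (alts i).all (fun d =>
  deq d (gdat i) || (wl i).any (fun w => wit d i w)))

theorem allOK_true : allOK = true := by decide +kernel

/-- a window `x, …, x+3` of the `i`-th function whose only `-1` is at offset `o` -/
def xo : ℕ → ℕ × ℕ
  | 0 => (9, 2)
  | 1 => (6, 2)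
  | 2 => (1, 2)
  | 3 => (13, 2)
  | 4 => (4, 3)
  | 5 => (9, 3)
  | 6 => (1, 2)
  | 7 => (1, 2)
  | 8 => (11, 2)
  | 9 => (22, 2)
  | 10 => (9, 2)
  | 11 => (9, 2)
  | 12 => (6, 2)
  | 13 => (6, 2)
  | _ => (4, 2)

/-- test of the window -/
def xoOK1 (i t : ℕ) : Bool :=
  Nat.beq (evp (l1 (gdat i)) ((xo i).1 + t) false).2 1 &&
    !(xor (evp (l1 (gdat i)) ((xo i).1 + t) false).1 (Nat.beq t (xo i).2))

/-- test of all windows -/
def xoOK : Bool := (List.range 15).all (fun i =>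
  Nat.ble 1 (xo i).1 && (Nat.beq (xo i).2 2 || Nat.beq (xo i).2 3) &&
    xoOK1 i 0 && xoOK1 i 1 && xoOK1 i 2 && xoOK1 i 3)

theorem xoOK_true : xoOK = true := by decide +kernel

lemma mem_PL {q : ℕ} (hq : q.Prime) (h : q ≤ 59) : q ∈ PL := by
  have h2 := hq.two_le
  interval_cases q <;> first | decide | (exfalso; revert hq; norm_num)

lemma prime_of_mem_PL {q : ℕ} (hq : q ∈ PL) : q.Prime ∧ q ≤ 59 := by
  simp only [PL, List.mem_cons, List.not_mem_nil, or_false] at hq
  rcases hq with rfl | rfl | rfl | rfl | rfl | rfl | rfl | rfl | rfl | rfl | rfl | rfl | rfl |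
    rfl | rfl | rfl | rfl <;> norm_num

lemma gdat_prime (i : ℕ) (hi : i ≤ 14) : (gdat i).1.Prime := by
  interval_cases i <;> simp only [gdat] <;> norm_num

lemma sg_eq_of_not_xor {a b : Bool} (h : (!(xor a b)) = true) : sg a = sg b := by
  revert h; cases a <;> cases b <;> simp

lemma evp_eval' {F : ℕ → ℤ} (hF : CM F) (l : List (ℕ × Bool))
    (hl : ∀ q ∈ l, 0 < q.1 ∧ F q.1 = sg q.2) (n : ℕ) (hn : 0 < n)
    (h : Nat.beq (evp l n false).2 1 = true) : F n = sg (evp l n false).1 := by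
  have h1 := (evp_spec hF.mul l hl n false hn).1
  have h2 : (evp l n false).2 = 1 := Nat.eq_of_beq_eq_true h
  rw [h2, hF.one] at h1
  simpa [sg] using h1

lemma eval_l1 {Φ : ℕ → ℤ} (hΦ : CM Φ) (d : ℕ × Bool × ℕ × List ℕ)
    (hd : ∀ q ∈ PL, Φ q = sg (dval d q)) (n : ℕ) (hn : 0 < n)
    (h : Nat.beq (evp (l1 d) n false).2 1 = true) : Φ n = sg (evp (l1 d) n false).1 := by
  refine evp_eval' hΦ (l1 d) ?_ n hn h
  intro q hq
  simp only [l1, List.mem_map] at hq
  obtain ⟨r, hr, rfl⟩ := hq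
  exact ⟨(prime_of_mem_PL hr).1.pos, hd r hr⟩

lemma eval_l2 {K : ℕ → ℤ} (hK : CM K) (d : ℕ × Bool × ℕ × List ℕ) (i : ℕ)
    (hd : ∀ q ∈ PL, K q = sg (xor (gb i q) (dval d q))) (n : ℕ) (hn : 0 < n)
    (h : Nat.beq (evp (l2 d i) n false).2 1 = true) : K n = sg (evp (l2 d i) n false).1 := by
  refine evp_eval' hK (l2 d i) ?_ n hn h
  intro q hq
  simp only [l2, List.mem_map] at hq
  obtain ⟨r, hr, rfl⟩ := hq
  exact ⟨(prime_of_mem_PL hr).1.pos, hd r hr⟩

lemma wit1_spec {Φ K : ℕ → ℤ} (hΦ : CM Φ) (hK : CM K) (d : ℕ × Bool × ℕ × List ℕ) (i : ℕ)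
    (hi : i ≤ 14)
    (hd : ∀ q ∈ PL, Φ q = sg (dval d q)) (hd2 : ∀ q ∈ PL, K q = sg (xor (gb i q) (dval d q)))
    (w : ℕ × ℕ × ℕ) (h1 : 0 < w.1) (h2 : 0 < w.2.1) (t : ℕ) (h : wit1 d i w t = true) :
    Φ (w.1 + t) * (K (w.2.1 + t * (gdat i).1 ^ w.2.2) * K ((gdat i).1 ^ w.2.2)) = 1 := by
  simp only [wit1, Bool.and_eq_true] at h
  obtain ⟨⟨⟨ha, hb⟩, hc⟩, he⟩ := h
  have hp := (gdat_prime i hi).pos
  rw [eval_l1 hΦ d hd _ (by omega) ha, eval_l2 hK d i hd2 _ (by omega) hb,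
    eval_l2 hK d i hd2 _ (Nat.pow_pos hp) hc, ← sg_xor, ← sg_xor]
  have : xor (evp (l1 d) (w.1 + t) false).1
    (xor (evp (l2 d i) (w.2.1 + t * (gdat i).1 ^ w.2.2) false).1
      (evp (l2 d i) ((gdat i).1 ^ w.2.2) false).1) = false := by simpa using he
  rw [this]; rfl

theorem main {F X : ℕ → ℤ} {m : ℕ} (hF : CM F) (hN : No4 F) (hm : 0 < m) (hX : RC m X)
    (hs : Summable (fun p : Dev F X => (1 : ℝ) / ((p : ℕ) : ℝ))) :
    ∃ i ≤ 14, ∀ q, q.Prime → F q = sg (gb i q) := by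
  classical
  obtain ⟨i, hi, h59⟩ := tree hF hN
  refine ⟨i, hi, ?_⟩
  by_contra hcon
  push Not at hcon
  set q0 := Nat.find hcon with hq0
  obtain ⟨hq0p, hq0n⟩ := Nat.find_spec hcon
  have hlt : ∀ q, q.Prime → q < q0 → F q = sg (gb i q) := by
    intro q hq hlt
    by_contra hne
    exact Nat.find_min hcon hlt ⟨hq, hne⟩
  rw [← hq0] at hq0p hq0n
  have hq59 : 59 < q0 := by
    by_contra h
    exact hq0n (h59 q0 (mem_PL hq0p (by omega)))
  obtain ⟨Φ, K, hΦ, hK, hFΦK, hper, hind⟩ := indep hF hN hm hX hs (gdat i).1 (gdat_prime i hi)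
    (q0 + 60)
  obtain ⟨d, hd, hΦd⟩ := class_all hΦ hm i hi hper
  have hKq : ∀ q, q.Prime → q ≤ q0 + 60 → K q = F q * Φ q := by
    intro q hq hle
    have h1 := hΦ.sq hq.pos
    rw [hFΦK q hq hle]
    linear_combination (-K q) * h1
  have hall := allOK_true
  unfold allOK at hall
  rw [List.all_eq_true] at hall
  have hall1 := hall i (List.mem_range.2 (by omega))
  rw [List.all_eq_true] at hall1
  have hall2 := hall1 d hd
  rw [Bool.or_eq_true] at hall2
  rcases hall2 with hde | hw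
  · -- the component at the special prime is that of the `i`-th function
    have hde' : d = gdat i := by simpa [deq] using hde
    rw [hde'] at hΦd
    have hKlt : ∀ n, 0 < n → (∀ q, q.Prime → q ∣ n → q < q0) → K n = 1 := by
      intro n hn hq
      refine MU.eq_of_primes hK.mu (G := fun _ => 1) ⟨rfl, fun _ _ _ _ => by ring⟩ n hn
        (fun q hqp hqn => ?_)
      have h1 := hq q hqp hqn
      rw [hKq q hqp (by omega), hlt q hqp h1, hΦd q hqp]
      exact sg_sq _
    have hKq0 : K q0 = -1 := by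
      rw [hKq q0 hq0p (by omega), hΦd q0 hq0p]
      have h1 : F q0 ≠ sg (dval (gdat i) q0) := hq0n
      rcases hF.sgn q0 hq0p.pos with h2 | h2 <;> rw [h2] at h1 ⊢ <;>
        cases hb : dval (gdat i) q0 <;> rw [hb] at h1 <;> simp [sg] at h1 ⊢
    have hKsm : ∀ n, 0 < n → n < q0 → K n = 1 := fun n hn hnq =>
      hKlt n hn (fun q _ hqn => lt_of_le_of_lt (Nat.le_of_dvd hn hqn) hnq)
    have hodd : q0 % 2 = 1 := by
      rcases Nat.Prime.eq_two_or_odd hq0p with h | h <;> omega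
    have hKsucc : K (q0 + 1) = 1 := by
      refine hKlt (q0 + 1) (by omega) (fun q hqp hqn => ?_)
      obtain ⟨c, hc⟩ := hqn
      have hc2 : 2 ≤ c := by
        by_contra hc2
        have : c = 0 ∨ c = 1 := by omega
        rcases this with h | h
        · rw [h] at hc; omega
        · rw [h, mul_one] at hc
          have h3 : q % 2 = 0 := by omega
          rcases Nat.Prime.eq_two_or_odd hqp with h4 | h4 <;> omega
      nlinarith
    have hx := xoOK_true
    unfold xoOK at hx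
    rw [List.all_eq_true] at hx
    have hx1 := hx i (List.mem_range.2 (by omega))
    simp only [Bool.and_eq_true] at hx1
    obtain ⟨⟨⟨⟨⟨ha, ho⟩, hx0'⟩, hx1'⟩, hx2'⟩, hx3'⟩ := hx1
    have hxpos : 0 < (xo i).1 := Nat.le_of_ble_eq_true ha
    have hxv : ∀ t, xoOK1 i t = true → Φ ((xo i).1 + t) = sg (Nat.beq t (xo i).2) := by
      intro t ht
      simp only [xoOK1, Bool.and_eq_true] at ht
      rw [eval_l1 hΦ (gdat i) (fun q hq => hΦd q (prime_of_mem_PL hq).1) _ (by omega) ht.1]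
      exact sg_eq_of_not_xor ht.2
    have hoff : (xo i).2 = 2 ∨ (xo i).2 = 3 := by
      rw [Bool.or_eq_true] at ho
      simpa using ho
    have v0 := hxv 0 hx0'
    have v1 := hxv 1 hx1'
    have v2 := hxv 2 hx2'
    have v3 := hxv 3 hx3'
    rcases hoff with ho | ho
    · rw [ho] at v0 v1 v2 v3
      refine hind (xo i).1 (q0 - 2) 0 hxpos (by omega) ?_
      intro t ht
      rw [pow_zero, mul_one, hK.one, mul_one]
      interval_cases t
      · rw [v0, hKsm (q0 - 2 + 0) (by omega) (by omega)]; rfl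
      · rw [v1, hKsm (q0 - 2 + 1) (by omega) (by omega)]; rfl
      · rw [v2, show q0 - 2 + 2 = q0 by omega, hKq0]; rfl
      · rw [v3, show q0 - 2 + 3 = q0 + 1 by omega, hKsucc]; rfl
    · rw [ho] at v0 v1 v2 v3
      refine hind (xo i).1 (q0 - 3) 0 hxpos (by omega) ?_
      intro t ht
      rw [pow_zero, mul_one, hK.one, mul_one]
      interval_cases t
      · rw [v0, hKsm (q0 - 3 + 0) (by omega) (by omega)]; rfl
      · rw [v1, hKsm (q0 - 3 + 1) (by omega) (by omega)]; rfl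
      · rw [v2, hKsm (q0 - 3 + 2) (by omega) (by omega)]; rfl
      · rw [v3, show q0 - 3 + 3 = q0 by omega, hKq0]; rfl
  · -- a witness
    rw [List.any_eq_true] at hw
    obtain ⟨w, -, hw⟩ := hw
    simp only [wit, Bool.and_eq_true] at hw
    obtain ⟨⟨⟨⟨⟨ha, hb⟩, hw0⟩, hw1⟩, hw2⟩, hw3⟩ := hw
    have ha' : 0 < w.1 := Nat.le_of_ble_eq_true ha
    have hb' : 0 < w.2.1 := Nat.le_of_ble_eq_true hb
    have hΦPL : ∀ q ∈ PL, Φ q = sg (dval d q) := fun q hq => hΦd q (prime_of_mem_PL hq).1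
    have hKPL : ∀ q ∈ PL, K q = sg (xor (gb i q) (dval d q)) := by
      intro q hq
      have h1 := prime_of_mem_PL hq
      rw [hKq q h1.1 (by omega), hlt q h1.1 (by omega), hΦPL q hq, sg_xor]
    refine hind w.1 w.2.1 w.2.2 ha' hb' ?_
    intro t ht
    interval_cases t
    · exact wit1_spec hΦ hK d i hi hΦPL hKPL w ha' hb' 0 hw0
    · exact wit1_spec hΦ hK d i hi hΦPL hKPL w ha' hb' 1 hw1
    · exact wit1_spec hΦ hK d i hi hΦPL hKPL w ha' hb' 2 hw2
    · exact wit1_spec hΦ hK d i hi hΦPL hKPL w ha' hb' 3 hw3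

end Pool.Agent.TH910.Hud
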